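import Mathlib

/-!
# Interpolation for partitions into indivisible dominating sets (MP_a3f2aa_co)
-/

namespace Pool.Agent.Results.MP_a3f2aa_co.Interpolation

open Finset

/-- `D` is a dominating set of `G`. -/
def Dominating {V : Type*} (G : SimpleGraph V) (D : Finset V) : Prop :=
  ∀ v, v ∉ D → ∃ w ∈ D, G.Adj v w

/-- `D` is an indivisible dominating set of `G`. -/
def Indivisible {V : Type*} [DecidableEq V] (G : SimpleGraph V) (D : Finset V) : Prop :=
  Dominating G D ∧ ¬ ∃ A B : Finset V, A.Nonempty ∧ B.Nonempty ∧ Disjoint A B ∧ A ∪ B = D ∧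
    Dominating G A ∧ Dominating G B

/-- The vertex set can be partitioned into exactly `k` (nonempty) classes, all with property
`P`. -/
def HasPartition {V : Type*} [Fintype V] [DecidableEq V] (P : Finset V → Prop) (k : ℕ) : Prop :=
  ∃ Q : Finpartition (univ : Finset V), Q.parts.card = k ∧ ∀ D ∈ Q.parts, P D

/-- The domatic number. -/
noncomputable def domaticNumber {V : Type*} [Fintype V] [DecidableEq V] (G : SimpleGraph V) : ℕ :=
  sSup {k | HasPartition (Dominating G) k}

/-- The adomatic number. -/
noncomputable def adomaticNumber {V : Type*} [Fintype V] [DecidableEq V] (G : SimpleGraph V) :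
    ℕ :=
  sInf {k | HasPartition (Indivisible G) k}

/-! ## Monotone families -/

section Abstract

variable {α : Type*} [DecidableEq α]

/-- `S` contains two disjoint members. -/
def Two (M : Finset α → Prop) (S : Finset α) : Prop :=
  ∃ A B : Finset α, A ⊆ S ∧ B ⊆ S ∧ Disjoint A B ∧ M A ∧ M B

/-- An upward closed family without the empty set. -/
structure Up (M : Finset α → Prop) : Prop where
  mono : ∀ A B : Finset α, A ⊆ B → M A → M B
  empty : ¬ M ∅

variable {M : Finset α → Prop}

omit [DecidableEq α] in
theorem two_mono {S T : Finset α} (h : S ⊆ T) (hS : Two M S) : Two M T := by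
  obtain ⟨A, B, hA, hB, hd, h1, h2⟩ := hS
  exact ⟨A, B, hA.trans h, hB.trans h, hd, h1, h2⟩

/-- Adding one point increases the packing number by at most one. -/
theorem mem_of_two_insert (hM : Up M) {S : Finset α} {x : α} (h : Two M (insert x S)) : M S := by
  obtain ⟨A, B, hA, hB, hd, h1, h2⟩ := h
  by_cases hx : x ∈ A
  · refine hM.mono B S ?_ h2
    intro y hy
    rcases Finset.mem_insert.1 (hB hy) with h | h
    · exact absurd hy (h ▸ Finset.disjoint_left.1 hd hx)
    · exact h
  · refine hM.mono A S ?_ h1
    intro y hy
    rcases Finset.mem_insert.1 (hA hy) with h | h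
    · exact absurd hy (h ▸ hx)
    · exact h

/-- `L` contains `k` consecutive blocks which are members. -/
def E (M : Finset α → Prop) : ℕ → List α → Prop
  | 0, _ => True
  | k + 1, L => ∃ A R, L = A ++ R ∧ M A.toFinset ∧ E M k R

/-- `L` can be cut into `k` blocks without two disjoint members. -/
def C (M : Finset α → Prop) : ℕ → List α → Prop
  | 0, L => L = []
  | k + 1, L => ∃ A R, L = A ++ R ∧ ¬ Two M A.toFinset ∧ C M k R

/-- `L` can be cut into `k` blocks which are members without two disjoint members. -/
def F (M : Finset α → Prop) : ℕ → List α → Prop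
  | 0, L => L = []
  | k + 1, L => ∃ A R, L = A ++ R ∧ M A.toFinset ∧ ¬ Two M A.toFinset ∧ F M k R

theorem toFinset_sub {L L' : List α} (h : L.Sublist L') : L.toFinset ⊆ L'.toFinset := by
  intro x hx
  rw [List.mem_toFinset] at hx ⊢
  exact h.subset hx

theorem E_sub (hM : Up M) : ∀ (k : ℕ) (L L' : List α), L.Sublist L' → E M k L → E M k L' := by
  intro k
  induction k with
  | zero => intro L L' _ _; trivial
  | succ k ih =>
    rintro L L' hL ⟨A, R, rfl, hA, hR⟩
    obtain ⟨A', R', rfl, h1, h2⟩ := List.append_sublist_iff.1 hL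
    exact ⟨A', R', rfl, hM.mono _ _ (toFinset_sub h1) hA, ih R R' h2 hR⟩

theorem C_sub : ∀ (k : ℕ) (L L' : List α), L'.Sublist L → C M k L → C M k L' := by
  intro k
  induction k with
  | zero =>
    intro L L' h hL
    have hL' : L = [] := hL
    subst hL'
    exact List.sublist_nil.1 h
  | succ k ih =>
    rintro L L' hL ⟨A, R, rfl, hA, hR⟩
    obtain ⟨A', R', rfl, h1, h2⟩ := List.sublist_append_iff.1 hL
    exact ⟨A', R', rfl, fun h => hA (two_mono (toFinset_sub h1) h), ih R R' h2 hR⟩

theorem not_two_nil (hM : Up M) : ¬ Two M ([] : List α).toFinset := by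
  rintro ⟨A, B, hA, _, _, h1, _⟩
  have : A = ∅ := Finset.subset_empty.1 (by simpa using hA)
  subst this
  exact hM.empty h1

theorem C_nil (hM : Up M) : ∀ k : ℕ, C M k ([] : List α) := by
  intro k
  induction k with
  | zero => rfl
  | succ k ih => exact ⟨[], [], rfl, not_two_nil hM, ih⟩

theorem C_succ (hM : Up M) {k : ℕ} {L : List α} (h : C M k L) : C M (k + 1) L :=
  ⟨[], L, rfl, not_two_nil hM, h⟩

theorem C_le (hM : Up M) {k l : ℕ} (hkl : k ≤ l) {L : List α} (h : C M k L) : C M l L := by
  induction hkl with
  | refl => exact h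
  | step _ ih => exact C_succ hM ih

theorem E_succ : ∀ (k : ℕ) (L : List α), E M (k + 1) L → E M k L := by
  intro k
  induction k with
  | zero => intro L _; trivial
  | succ k ih =>
    rintro L ⟨A, R, rfl, hA, hR⟩
    exact ⟨A, R, rfl, hA, ih R hR⟩

theorem E_le {k l : ℕ} (hkl : k ≤ l) {L : List α} (h : E M l L) : E M k L := by
  induction hkl with
  | refl => exact h
  | step _ ih => exact ih (E_succ _ _ h)

omit [DecidableEq α] in
/-- The first place where a property of initial segments becomes true. -/
theorem first_cut (P : List α → Prop) : ∀ (L acc : List α), ¬ P acc → P (acc ++ L) →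
    ∃ B z R, L = B ++ z :: R ∧ ¬ P (acc ++ B) ∧ P (acc ++ B ++ [z]) := by
  intro L
  induction L with
  | nil =>
    intro acc h1 h2
    rw [List.append_nil] at h2
    exact absurd h2 h1
  | cons z L ih =>
    intro acc h1 h2
    by_cases h3 : P (acc ++ [z])
    · exact ⟨[], z, L, rfl, by simpa using h1, by simpa using h3⟩
    · obtain ⟨B, w, R, h4, h5, h6⟩ := ih (acc ++ [z]) h3 (by simpa using h2)
      exact ⟨z :: B, w, R, by rw [h4]; rfl, by simpa using h5, by simpa using h6⟩

theorem E_of_not_C (hM : Up M) : ∀ (k : ℕ) (x : α) (L : List α), ¬ C M k (x :: L) →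
    E M k L := by
  intro k
  induction k with
  | zero => intro x L _; trivial
  | succ k ih =>
    intro x L h
    have h1 : Two M (([] : List α) ++ (x :: L)).toFinset := by
      by_contra h2
      exact h ⟨x :: L, [], by simp, h2, C_nil hM k⟩
    obtain ⟨B, z, R, h2, h3, h4⟩ := first_cut (fun A => Two M A.toFinset) (x :: L) []
      (not_two_nil hM) h1
    rw [List.nil_append] at h3 h4
    have h5 : ¬ C M k (z :: R) := fun h6 => h ⟨B, z :: R, h2, h3, h6⟩
    have h6 := ih z R h5
    cases B with
    | nil =>
      exfalso
      have h7 : Two M (insert z (∅ : Finset α)) := by simpa using h4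
      exact hM.empty (mem_of_two_insert hM h7)
    | cons y B =>
      rw [List.cons_append, List.cons.injEq] at h2
      obtain ⟨rfl, h2⟩ := h2
      refine ⟨B ++ [z], R, by rw [h2]; simp, ?_, h6⟩
      apply mem_of_two_insert hM (x := x)
      have h8 : ((x :: B) ++ [z]).toFinset = insert x (B ++ [z]).toFinset := by
        simp
      rw [← h8]
      exact h4

theorem swap_step (hM : Up M) : ∀ (k : ℕ) (P : List α) (x y : α) (Q : List α),
    ¬ C M k (P ++ y :: x :: Q) → E M k (P ++ x :: y :: Q) := by
  intro k
  induction k with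
  | zero => intro P x y Q _; trivial
  | succ k ih =>
    intro P x y Q h
    have h1 : Two M (([] : List α) ++ (P ++ y :: x :: Q)).toFinset := by
      by_contra h2
      exact h ⟨P ++ y :: x :: Q, [], by simp, h2, C_nil hM k⟩
    obtain ⟨B, z, R, h2, h3, h4⟩ := first_cut (fun A => Two M A.toFinset)
      (P ++ y :: x :: Q) [] (not_two_nil hM) h1
    rw [List.nil_append] at h3 h4
    have h5 : ¬ C M k (z :: R) := fun h6 => h ⟨B, z :: R, h2, h3, h6⟩
    have hMB : M B.toFinset := by
      apply mem_of_two_insert hM (x := z)
      have h8 : (B ++ [z]).toFinset = insert z B.toFinset := by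
        ext w
        simp
      rw [← h8]
      exact h4
    have hMBz : M (B ++ [z]).toFinset :=
      hM.mono _ _ (toFinset_sub (List.sublist_append_left B [z])) hMB
    rcases List.append_eq_append_iff.1 h2 with ⟨a', ha, hb⟩ | ⟨c', hc, hd⟩
    · -- `B = P ++ a'`, `y :: x :: Q = a' ++ z :: R`
      cases a' with
      | nil =>
        rw [List.nil_append] at hb
        rw [List.append_nil] at ha
        rw [← hb] at h5
        have h6 := ih [] x y Q h5
        exact ⟨P, x :: y :: Q, rfl, by rw [← ha]; exact hMB, h6⟩
      | cons y' a'' =>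
        rw [List.cons_append, List.cons.injEq] at hb
        obtain ⟨rfl, hb⟩ := hb
        cases a'' with
        | nil =>
          rw [List.nil_append, List.cons.injEq] at hb
          obtain ⟨rfl, rfl⟩ := hb
          have h6 := E_of_not_C hM k x Q h5
          refine ⟨P ++ [x, y], Q, by simp, ?_, h6⟩
          have h7 : (P ++ [x, y]).toFinset = (B ++ [x]).toFinset := by
            rw [ha]
            ext w
            simp only [List.mem_toFinset, List.mem_append, List.mem_cons, List.not_mem_nil]
            tauto
          rw [h7]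
          exact hMBz
        | cons x' a''' =>
          rw [List.cons_append, List.cons.injEq] at hb
          obtain ⟨rfl, hb⟩ := hb
          have h6 := E_of_not_C hM k z R h5
          refine ⟨P ++ x :: y :: (a''' ++ [z]), R, by rw [hb]; simp, ?_, h6⟩
          have h7 : (P ++ x :: y :: (a''' ++ [z])).toFinset = (B ++ [z]).toFinset := by
            rw [ha]
            ext w
            simp only [List.mem_toFinset, List.mem_append, List.mem_cons, List.not_mem_nil]
            tauto
          rw [h7]
          exact hMBz
    · -- `P = B ++ c'`, `z :: R = c' ++ y :: x :: Q`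
      rw [hd] at h5
      have h6 := ih c' x y Q h5
      refine ⟨B, c' ++ x :: y :: Q, by rw [hc]; simp, hMB, h6⟩

theorem F_of_E_C (hM : Up M) : ∀ (k : ℕ) (L : List α), E M k L → C M k L → F M k L := by
  intro k
  induction k with
  | zero => intro L _ h; exact h
  | succ k ih =>
    rintro L ⟨A1, R1, h1, hA1, hE⟩ ⟨B1, R2, h2, hB1, hC⟩
    rw [h1] at h2
    rcases List.append_eq_append_iff.1 h2 with ⟨a', ha, hb⟩ | ⟨c', hc, hd⟩
    · -- `B1 = A1 ++ a'`, `R1 = a' ++ R2`
      have key : ∀ a' : List α, E M k (a' ++ R2) → ∃ a1 a2, a' = a1 ++ a2 ∧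
          E M k (a2 ++ R2) ∧ C M k (a2 ++ R2) := by
        intro a'
        induction a' with
        | nil =>
          intro h
          exact ⟨[], [], rfl, h, by simpa using hC⟩
        | cons z a'' ih' =>
          intro h
          by_cases h3 : C M k (z :: a'' ++ R2)
          · exact ⟨[], z :: a'', rfl, h, h3⟩
          · have h4 := E_of_not_C hM k z (a'' ++ R2) (by simpa using h3)
            obtain ⟨a1, a2, h5, h6, h7⟩ := ih' h4
            exact ⟨z :: a1, a2, by rw [h5]; rfl, h6, h7⟩
      obtain ⟨a1, a2, h5, h6, h7⟩ := key a' (by rw [← hb]; exact hE)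
      refine ⟨A1 ++ a1, a2 ++ R2, by rw [h1, hb, h5]; simp, ?_, ?_, ih _ h6 h7⟩
      · exact hM.mono _ _ (toFinset_sub (List.sublist_append_left A1 a1)) hA1
      · intro h8
        apply hB1
        rw [ha, h5, ← List.append_assoc]
        exact two_mono (toFinset_sub (List.sublist_append_left _ a2)) h8
    · -- `A1 = B1 ++ c'`, `R2 = c' ++ R1`
      have key : ∃ c1 c2, c' = c1 ++ c2 ∧ M (B1 ++ c1).toFinset ∧
          ¬ Two M (B1 ++ c1).toFinset := by
        by_cases h3 : M B1.toFinset
        · exact ⟨[], c', rfl, by simpa using h3, by simpa using hB1⟩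
        · obtain ⟨B, z, R, h4, h5, h6⟩ := first_cut (fun A => M A.toFinset) c' B1 h3
            (by rw [← hc]; exact hA1)
          refine ⟨B ++ [z], R, by rw [h4]; simp, by rw [← List.append_assoc]; exact h6, ?_⟩
          intro h7
          apply h5
          apply mem_of_two_insert hM (x := z)
          have h8 : (B1 ++ (B ++ [z])).toFinset = insert z (B1 ++ B).toFinset := by
            ext w
            simp only [List.mem_toFinset, List.mem_append, List.mem_cons, List.not_mem_nil,
              Finset.mem_insert]
            tauto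
          rw [← h8]
          exact h7
      obtain ⟨c1, c2, h4, h5, h6⟩ := key
      refine ⟨B1 ++ c1, c2 ++ R1, by rw [h1, hc, h4]; simp, h5, h6, ih _ ?_ ?_⟩
      · exact E_sub hM k R1 _ (List.sublist_append_right c2 R1) hE
      · refine C_sub k R2 _ ?_ hC
        rw [hd, h4, List.append_assoc]
        exact List.sublist_append_right c1 _

theorem perm_step (hM : Up M) {k : ℕ} {L0 : List α} (hF : ∀ L : List α, L.Perm L0 → ¬ F M k L)
    {l1 l2 : List α} (h : l1.Perm l2) : ∀ P : List α, (P ++ l1).Perm L0 → E M k (P ++ l1) →
      E M k (P ++ l2) := by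
  induction h with
  | nil => intro P _ h; exact h
  | cons x _ ih =>
    intro P hP h1
    have h2 := ih (P ++ [x]) (by simpa using hP) (by simpa using h1)
    simpa using h2
  | swap x y l =>
    intro P hP h1
    apply swap_step hM
    intro h2
    exact hF _ hP (F_of_E_C hM k _ h1 h2)
  | trans h12 _ ih1 ih2 =>
    intro P hP h1
    exact ih2 P ((List.Perm.append_left P h12.symm).trans hP) (ih1 P hP h1)

/-- Interpolation for lists. -/
theorem interpolation (hM : Up M) {k : ℕ} {L1 L2 : List α} (h : L1.Perm L2) (h1 : C M k L1)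
    (h2 : E M k L2) : ∃ L : List α, L.Perm L1 ∧ F M k L := by
  by_contra hno
  push Not at hno
  have hno' : ∀ L : List α, L.Perm L2 → ¬ F M k L := fun L hL => hno L (hL.trans h.symm)
  have h3 := perm_step hM hno' h.symm [] (List.Perm.refl _) h2
  exact hno L1 (List.Perm.refl _) (F_of_E_C hM k L1 h3 h1)

/-- From a cut list to a family of sets. -/
theorem exists_parts (hM : Up M) : ∀ (k : ℕ) (L : List α), L.Nodup → F M k L →
    ∃ Q : Finset (Finset α), Q.card = k ∧ (∀ D ∈ Q, M D ∧ ¬ Two M D) ∧
      (Q : Set (Finset α)).PairwiseDisjoint id ∧ Q.sup id = L.toFinset := by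
  intro k
  induction k with
  | zero =>
    intro L _ h
    have hL : L = [] := h
    subst hL
    exact ⟨∅, rfl, by simp, by simp, by simp⟩
  | succ k ih =>
    rintro L hnd ⟨A, R, rfl, hA, hA2, hR⟩
    rw [List.nodup_append] at hnd
    obtain ⟨_, hRn, hAR⟩ := hnd
    obtain ⟨Q, hQ1, hQ2, hQ3, hQ4⟩ := ih R hRn hR
    have hdis : ∀ D ∈ Q, Disjoint A.toFinset D := by
      intro D hD
      rw [Finset.disjoint_left]
      intro x hx hxD
      have h1 : x ∈ R.toFinset := by
        rw [← hQ4]
        exact (Finset.le_sup (f := id) hD) hxD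
      exact hAR x (List.mem_toFinset.1 hx) x (List.mem_toFinset.1 h1) rfl
    have hAQ : A.toFinset ∉ Q := by
      intro h
      have h1 := hdis _ h
      rw [disjoint_self] at h1
      have h2 : A.toFinset = ∅ := h1
      rw [h2] at hA
      exact hM.empty hA
    refine ⟨insert A.toFinset Q, by rw [Finset.card_insert_of_notMem hAQ, hQ1], ?_, ?_, ?_⟩
    · intro D hD
      rcases Finset.mem_insert.1 hD with rfl | h
      · exact ⟨hA, hA2⟩
      · exact hQ2 D h
    · rw [Finset.coe_insert]
      refine hQ3.insert ?_
      intro D hD _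
      exact hdis D hD
    · rw [Finset.sup_insert, hQ4]
      ext w
      simp

/-- From a family of sets to lists. -/
theorem list_of_parts (P : Finset α → Prop) : ∀ (Ls : List (Finset α)),
    (∀ D ∈ Ls, M D ∧ (P D → ¬ Two M D)) →
      E M Ls.length (Ls.map Finset.toList).flatten ∧
      ((∀ D ∈ Ls, P D) → C M Ls.length (Ls.map Finset.toList).flatten) := by
  intro Ls
  induction Ls with
  | nil => intro _; exact ⟨trivial, fun _ => rfl⟩
  | cons D Ls ih =>
    intro h
    have h1 := ih fun D' hD' => h D' (List.mem_cons_of_mem _ hD')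
    have h2 := h D List.mem_cons_self
    constructor
    · refine ⟨D.toList, _, by simp, ?_, h1.1⟩
      rw [Finset.toList_toFinset]
      exact h2.1
    · intro hP
      refine ⟨D.toList, _, by simp, ?_, h1.2 fun D' hD' => hP D' (List.mem_cons_of_mem _ hD')⟩
      rw [Finset.toList_toFinset]
      exact h2.2 (hP D List.mem_cons_self)

end Abstract

/-! ## The theorem -/

variable {V : Type*} [Fintype V] [DecidableEq V]

omit [Fintype V] [DecidableEq V] in
theorem up_dominating [Nonempty V] (G : SimpleGraph V) : Up (Dominating G) := by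
  constructor
  · intro A B hAB hA v hv
    obtain ⟨w, hw, h⟩ := hA v fun h => hv (hAB h)
    exact ⟨w, hAB hw, h⟩
  · intro h
    obtain ⟨v⟩ := (inferInstance : Nonempty V)
    obtain ⟨w, hw, _⟩ := h v (Finset.notMem_empty v)
    exact Finset.notMem_empty w hw

omit [Fintype V] in
theorem indivisible_iff [Nonempty V] (G : SimpleGraph V) (D : Finset V) :
    Indivisible G D ↔ Dominating G D ∧ ¬ Two (Dominating G) D := by
  have hM := up_dominating G
  constructor
  · rintro ⟨h1, h2⟩
    refine ⟨h1, ?_⟩
    rintro ⟨A, B, hA, hB, hd, hMA, hMB⟩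
    apply h2
    have hne : ∀ S : Finset V, Dominating G S → S.Nonempty := by
      intro S hS
      rw [Finset.nonempty_iff_ne_empty]
      rintro rfl
      exact hM.empty hS
    have hBD : B ⊆ D \ A := by
      intro x hx
      rw [Finset.mem_sdiff]
      exact ⟨hB hx, fun h => Finset.disjoint_left.1 hd h hx⟩
    refine ⟨A, D \ A, hne A hMA, ?_, disjoint_sdiff, ?_, hMA, hM.mono _ _ hBD hMB⟩
    · exact (hne B hMB).mono hBD
    · exact Finset.union_sdiff_of_subset hA
  · rintro ⟨h1, h2⟩
    refine ⟨h1, ?_⟩
    rintro ⟨A, B, _, _, hd, hAB, hMA, hMB⟩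
    exact h2 ⟨A, B, by rw [← hAB]; exact Finset.subset_union_left,
      by rw [← hAB]; exact Finset.subset_union_right, hd, hMA, hMB⟩

theorem perm_of_partition (Q Q' : Finpartition (univ : Finset V)) :
    ((Q.parts.toList.map Finset.toList).flatten).Perm
      ((Q'.parts.toList.map Finset.toList).flatten) := by
  have key : ∀ Q : Finpartition (univ : Finset V),
      ((Q.parts.toList.map Finset.toList).flatten).Nodup ∧
      ∀ v, v ∈ (Q.parts.toList.map Finset.toList).flatten := by
    intro Q
    constructor
    · rw [List.nodup_flatten]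
      constructor
      · intro l hl
        obtain ⟨D, _, rfl⟩ := List.mem_map.1 hl
        exact Finset.nodup_toList D
      · rw [List.pairwise_map]
        have h1 : Q.parts.toList.Pairwise (fun a b => a ≠ b) := Finset.nodup_toList _
        have h2 : Q.parts.toList.Pairwise (fun a b => a ∈ Q.parts ∧ b ∈ Q.parts) := by
          rw [List.pairwise_iff_forall_sublist]
          intro a b hab
          have h3 := hab.subset
          exact ⟨Finset.mem_toList.1 (h3 (by simp)), Finset.mem_toList.1 (h3 (by simp))⟩
        refine (h1.and h2).imp ?_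
        rintro a b ⟨hab, ha, hb⟩
        intro x hx hx'
        exact hab (Q.eq_of_mem_parts ha hb (Finset.mem_toList.1 hx) (Finset.mem_toList.1 hx'))
    · intro v
      obtain ⟨D, hD, hv⟩ := Q.exists_mem (Finset.mem_univ v)
      rw [List.mem_flatten]
      exact ⟨D.toList, List.mem_map.2 ⟨D, Finset.mem_toList.2 hD, rfl⟩, Finset.mem_toList.2 hv⟩
  rw [List.perm_ext_iff_of_nodup (key Q).1 (key Q').1]
  intro v
  exact ⟨fun _ => (key Q').2 v, fun _ => (key Q).2 v⟩

/-- **Interpolation theorem.** For every finite graph with at least one vertex and every `k`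
between the adomatic and the domatic number there is a partition of the vertex set into exactly
`k` indivisible dominating sets. -/
theorem result (V : Type*) [Fintype V] [DecidableEq V] [Nonempty V] (G : SimpleGraph V) (k : ℕ)
    (h1 : adomaticNumber G ≤ k) (h2 : k ≤ domaticNumber G) :
    HasPartition (Indivisible G) k := by
  have hM := up_dominating G
  -- the set of orders of domatic partitions is bounded and nonempty
  have hbdd : BddAbove {k | HasPartition (Dominating G) k} := by
    refine ⟨Fintype.card V, ?_⟩
    rintro n ⟨Q, hQ, _⟩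
    rw [← hQ]
    exact Q.card_parts_le_card
  have hne : {k | HasPartition (Dominating G) k}.Nonempty := by
    refine ⟨_, Finpartition.indiscrete (a := (univ : Finset V)) ?_, rfl, ?_⟩
    · exact Finset.univ_nonempty.ne_empty
    · intro D hD v hv
      have h3 : D = univ := by simpa [Finpartition.indiscrete] using hD
      exact absurd (Finset.mem_univ v) (h3 ▸ hv)
  obtain ⟨Qd, hQd, hQd'⟩ := Nat.sSup_mem hne hbdd
  -- the domatic number is attained by indivisible sets
  have hmax : ∀ D ∈ Qd.parts, Indivisible G D := by
    intro D hD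
    refine ⟨hQd' D hD, ?_⟩
    rintro ⟨A, B, hA, hB, hd, hAB, hMA, hMB⟩
    have hAD : A ⊆ D := hAB ▸ Finset.subset_union_left
    have hBD : B ⊆ D := hAB ▸ Finset.subset_union_right
    have hnew : HasPartition (Dominating G) (Qd.parts.card + 1) := by
      have hdisD : ∀ S ∈ Qd.parts.erase D, Disjoint D S := by
        intro S hS
        rw [Finset.mem_erase] at hS
        exact Qd.disjoint hD hS.2 hS.1.symm
      have hAn : A ∉ insert B (Qd.parts.erase D) := by
        intro h
        rcases Finset.mem_insert.1 h with h | h
        · subst h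
          rw [disjoint_self] at hd
          exact hA.ne_empty hd
        · have h3 := hdisD A h
          have h4 : Disjoint A A := h3.mono_left hAD
          rw [disjoint_self] at h4
          exact hA.ne_empty h4
      have hBn : B ∉ Qd.parts.erase D := by
        intro h
        have h3 := hdisD B h
        have h4 : Disjoint B B := h3.mono_left hBD
        rw [disjoint_self] at h4
        exact hB.ne_empty h4
      have hpd : ((insert A (insert B (Qd.parts.erase D)) : Finset (Finset V)) :
          Set (Finset V)).PairwiseDisjoint id := by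
        rw [Finset.coe_insert, Finset.coe_insert]
        have h0 : ((Qd.parts.erase D : Finset (Finset V)) : Set (Finset V)).PairwiseDisjoint id :=
          Qd.supIndep.pairwiseDisjoint.subset (by
            intro S hS
            exact Finset.mem_of_mem_erase hS)
        have h00 := h0.insert (i := B) (fun S hS _ => (hdisD S hS).mono_left hBD)
        refine h00.insert (i := A) ?_
        intro S hS _
        rcases hS with rfl | hS
        · exact hd
        · exact (hdisD S hS).mono_left hAD
      have hsup : (insert A (insert B (Qd.parts.erase D)) : Finset (Finset V)).sup id = univ := by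
        apply Finset.eq_univ_of_forall
        intro v
        obtain ⟨S, hS, hvS⟩ := Qd.exists_mem (Finset.mem_univ v)
        rw [Finset.mem_sup]
        by_cases hSD : S = D
        · subst hSD
          rw [← hAB] at hvS
          rcases Finset.mem_union.1 hvS with h | h
          · exact ⟨A, by simp, h⟩
          · exact ⟨B, by simp, h⟩
        · exact ⟨S, by simp [hSD, hS], hvS⟩
      refine ⟨⟨insert A (insert B (Qd.parts.erase D)),
        Finset.supIndep_iff_pairwiseDisjoint.2 hpd, hsup, ?_⟩, ?_, ?_⟩
      · intro h
        rcases Finset.mem_insert.1 h with h | h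
        · exact hA.ne_empty h.symm
        · rcases Finset.mem_insert.1 h with h | h
          · exact hB.ne_empty h.symm
          · exact Qd.bot_notMem (Finset.mem_of_mem_erase h)
      · show (insert A (insert B (Qd.parts.erase D))).card = _
        rw [Finset.card_insert_of_notMem hAn, Finset.card_insert_of_notMem hBn,
          Finset.card_erase_of_mem hD]
        have h5 : 0 < Qd.parts.card := Finset.card_pos.2 ⟨D, hD⟩
        omega
      · intro S hS
        rcases Finset.mem_insert.1 hS with rfl | hS
        · exact hMA
        · rcases Finset.mem_insert.1 hS with rfl | hS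
          · exact hMB
          · exact hQd' S (Finset.mem_of_mem_erase hS)
    have h6 := le_csSup hbdd hnew
    have h7 : Qd.parts.card = sSup {k | HasPartition (Dominating G) k} := hQd
    rw [← h7] at h6
    omega
  have hneI : {k | HasPartition (Indivisible G) k}.Nonempty := ⟨_, Qd, rfl, hmax⟩
  obtain ⟨Qa, hQa, hQa'⟩ := Nat.sInf_mem hneI
  have ha := list_of_parts (M := Dominating G) (Indivisible G) Qa.parts.toList (by
    intro D hD
    have h3 := hQa' D (Finset.mem_toList.1 hD)
    exact ⟨h3.1, fun _ => ((indivisible_iff G D).1 h3).2⟩)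
  have hb := list_of_parts (M := Dominating G) (Indivisible G) Qd.parts.toList (by
    intro D hD
    have h3 := hmax D (Finset.mem_toList.1 hD)
    exact ⟨h3.1, fun _ => ((indivisible_iff G D).1 h3).2⟩)
  have haC := ha.2 fun D hD => hQa' D (Finset.mem_toList.1 hD)
  rw [Finset.length_toList, hQa] at haC
  have hbE := hb.1
  rw [Finset.length_toList, hQd] at hbE
  obtain ⟨L, hL, hF⟩ := interpolation hM (perm_of_partition Qa Qd) (C_le hM h1 haC)
    (E_le h2 hbE)
  have hLn : L.Nodup := by
    rw [hL.nodup_iff]
    have h3 := perm_of_partition Qa Qa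
    rw [List.nodup_flatten]
    constructor
    · intro l hl
      obtain ⟨D, _, rfl⟩ := List.mem_map.1 hl
      exact Finset.nodup_toList D
    · rw [List.pairwise_map]
      have h1 : Qa.parts.toList.Pairwise (fun a b => a ≠ b) := Finset.nodup_toList _
      have h2 : Qa.parts.toList.Pairwise (fun a b => a ∈ Qa.parts ∧ b ∈ Qa.parts) := by
        rw [List.pairwise_iff_forall_sublist]
        intro a b hab
        have h3 := hab.subset
        exact ⟨Finset.mem_toList.1 (h3 (by simp)), Finset.mem_toList.1 (h3 (by simp))⟩
      refine (h1.and h2).imp ?_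
      rintro a b ⟨hab, ha, hb⟩
      intro x hx hx'
      exact hab (Qa.eq_of_mem_parts ha hb (Finset.mem_toList.1 hx) (Finset.mem_toList.1 hx'))
  obtain ⟨Q, hQ1, hQ2, hQ3, hQ4⟩ := exists_parts hM k L hLn hF
  have hLu : L.toFinset = univ := by
    apply Finset.eq_univ_of_forall
    intro v
    rw [List.mem_toFinset, hL.mem_iff, List.mem_flatten]
    obtain ⟨D, hD, hv⟩ := Qa.exists_mem (Finset.mem_univ v)
    exact ⟨D.toList, List.mem_map.2 ⟨D, Finset.mem_toList.2 hD, rfl⟩, Finset.mem_toList.2 hv⟩
  refine ⟨⟨Q, Finset.supIndep_iff_pairwiseDisjoint.2 hQ3, hQ4.trans hLu, ?_⟩, hQ1, ?_⟩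
  · intro h
    exact hM.empty (hQ2 _ h).1
  · intro D hD
    exact (indivisible_iff G D).2 (hQ2 D hD)

end Pool.Agent.Results.MP_a3f2aa_co.Interpolation
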